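import Pool.Agent.U458.WN.Stm

set_option autoImplicit false

namespace Pool.Agent.U458.WN

open Filter MeasureTheory Topology Complex
open Pool.Agent.N748.GC

/-- the three statements together, from the packages -/
theorem asm
    (pFAR : S_NNB → S_LEN → S_EQ → S_FAR)
    (pZML : S_ZPA → S_MVW → S_ZML)
    (pKAP : S_ZML → S_MER → S_KAP)
    (pONE : S_NNB → S_NNL2 → S_LEN → S_ONE2)
    (pBADA : S_NNQ2 → S_LEN → S_BADA2)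
    (pBADB : S_NNB → S_LEN → S_MER → S_BADB2)
    (pNEAR : S_NNB → S_LEN → S_COS → S_MER → S_TAIL → S_NEAR2)
    (pTSX : S_ONE2 → S_BADA2 → S_BADB2 → S_NEAR2 → S_FAR → S_KAP → S_TSX)
    (pCLS : S_TSX → S_CLS)
    (pMOM : S_MER → S_MOM2) (pCUT : S_MOM2 → S_CUT2)
    (pCORE : S_CLS → S_ASM2 → S_CUT2 → S_ERG → S_CORE2)
    (pWIN : S_CORE2 → S_WIN2)
    (NNB : S_NNB) (LEN : S_LEN) (EQ : S_EQ) (MER : S_MER) (COS : S_COS) (TAIL : S_TAIL) (ERG : S_ERG)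
    (NNL2 : S_NNL2) (NNQ2 : S_NNQ2) (ZPA : S_ZPA) (MVW : S_MVW) (ASM2 : S_ASM2)
    (DEG : S_DEG) (BDD : S_BDD) : S_WIN2 ∧ S_DEG ∧ S_BDD := by
  refine ⟨?_, DEG, BDD⟩
  exact pWIN (pCORE (pCLS (pTSX (pONE NNB NNL2 LEN) (pBADA NNQ2 LEN) (pBADB NNB LEN MER) (pNEAR NNB LEN COS MER TAIL)
    (pFAR NNB LEN EQ) (pKAP (pZML ZPA MVW) MER))) ASM2 (pCUT (pMOM MER)) ERG)

end Pool.Agent.U458.WN
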