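import Pool.Agent.N748.GC.L2

set_option autoImplicit false

/-!
# Project WN: moments of the zeta function near the critical line in almost all windows of length `δ^(-θ)`

The statements of the parts are those of `Pool.Agent.N748.GC.L2`, and the two below.
-/

namespace Pool.Agent.U458.WN

open Finset Filter MeasureTheory MonoidAlgebra Topology Complex
open Pool.Agent.N748.GC

/-- (TSX) the weights of the comparison polynomials satisfy the assumptions `TS2` of the assembly -/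
def S_TSX : Prop := ∀ α : ℝ, 0 < α → α < 2 → ∀ ε1 : ℝ, 0 < ε1 → ε1 ≤ 1 → ∀ b : ℝ, 0 < b → ∀ c : ℝ, 0 ≤ c →
  ∀ e : ℝ, 0 < e → ∃ A C : ℝ, 0 ≤ C ∧ ∃ z0 R0 : ℕ, ∀ z ≥ z0, ∀ Rs ≥ R0, ∀ (yf : ℝ → ℝ) (Jf : ℝ → ℕ),
  SB c z Rs yf Jf → ∀ ρ : ℝ, 0 < ρ → (∀ᶠ X : ℝ in atTop, ρ * Real.log X ≤ Real.log (yf X)) →
  ∃ δ1 lam1 : ℝ, 0 < δ1 ∧ 1 ≤ lam1 ∧ ∀ lam δ0 : ℝ, lam1 ≤ lam → δ0 ≤ δ1 →
    TS2 b C (α ^ 2 + ε1) e lam δ0 z (WB α z Rs yf Jf) (gB α A ε1 z Rs yf Jf)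
      (fun X δ h => KX α z (yf X) (Jf X) δ h)

/-- (CLS) the normalised moment weight is close to the density of the small primes times a weight with `TS2` -/
def S_CLS : Prop := ∀ α : ℝ, 0 < α → α < 2 → ∀ ε1 : ℝ, 0 < ε1 → ε1 ≤ 1 → ∀ b : ℝ, 0 < b → ∀ e : ℝ, 0 < e →
  ∃ z0 : ℕ, ∀ z ≥ z0, 3 ≤ z ∧ ∃ (C lam δ0 : ℝ) (W g κ : ℝ → ℝ → ℝ → ℝ), 0 ≤ C ∧ 1 ≤ lam ∧ 0 < δ0 ∧ δ0 ≤ 1 / 16 ∧
    TS2 b C (α ^ 2 + ε1) e lam δ0 z W g κ ∧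
    (∀ᶠ X : ℝ in atTop, ∀ δ : ℝ, lam / Real.log X ≤ δ → δ ≤ δ0 →
      (∃ AA : ℝ → ℝ, Continuous AA ∧ (∀ u, |AA u - mz α z u| ≤ e * mz α z u) ∧
        ∫ u in (Xl X)..(X + 1), |Zn α δ u - AA u * W X δ u| ≤ e * X) ∧
      ∫ u in (0:ℝ)..(Xl X + 1), (Zn α δ u + mz α z u) ≤ e * X)

end Pool.Agent.U458.WN
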